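import Pool.Agent.Helper647_SG.Ap1

/-!
# Arithmetic progressions of small difference have many terms far from all ordinates of zeta zeros

The linear independence conjecture implies that an arithmetic progression contains at most two
positive ordinates of zeros of the zeta function (three terms `a, b, c` of a progression satisfy a
linear relation with integer coefficients).  Unconditionally, with absolute constants: let `T` be
large, let `1 / log T ≤ δ ≤ δ₀`, and let `u + kδ` (`m₁ ≤ k < m₂`) be ANY arithmetic progression of
`P = m₂ - m₁ ≥ T^(51/100)` terms in `[T, 2T]`.  Then at least `c P² / (T log T)` of its terms are at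
distance more than `c (P / T)^(1/2) (log T)^(-3/2)` from every `γ` with `ζ(1/2 + iγ) = 0`.

For a whole progression in `[T, 2T]`, with about `T / δ` terms, this is a proportion at least
`c / (δ log T)` of the terms, at distance at least `c (δ log T)^(-1/2) / log T` from the ordinates.
In particular, if the difference is at most `A / log T`, a fixed but arbitrarily large multiple of the
mean spacing of the zeros, a positive proportion (depending on `A` only) of the terms is further
than a positive multiple of the mean spacing from all ordinates, for every progression.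

Idea of the proof.  Let `X = Z |B|²`, `Z` Hardy's function and `B` Selberg's mollifier.  (1) The
first moment of `ζ B²` over the progression is at least `P / 2`: the terms `m^(-iu)` which resonate
with the progression have `m` close to `e^(2πl/δ)`, `l ≥ 1`, which is large as `δ ≤ δ₀`.  (2) Near every
point `X` is, up to a tiny error, a trigonometric sum with frequencies at most `3 log T`; writing such a
sum as the convolution with a fixed kernel gives `∑ X(u + kδ)² ≪ log T ∫ X² ≪ T log T` and, for
arbitrary displacements `|y_k| ≤ η ≤ 1 / (3 log T)`,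
`∑ (X(u + kδ + y_k) - X(u + kδ))² ≪ (η log T)² T log T + T^(-1/60) P`.  (3) If `u + kδ + y_k` is an ordinate,
then `X` vanishes there; so the terms near ordinates contribute at most `P / 4` to the first moment,
and the Cauchy-Schwarz inequality bounds the number of the others from below.
-/

namespace Pool.Agent.Results.MP_0ec205_nt.ProgressionsFarFromOrdinates

/-- **The theorem.**  There are absolute constants `c, δ₀ > 0` and `T₀` such that for all `T ≥ T₀`, every
arithmetic progression `u + kδ`, `m₁ ≤ k < m₂`, in `[T, 2T]` with `1 / log T ≤ δ ≤ δ₀` and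
`P = m₂ - m₁ ≥ T^(51/100)` has at least `c P² / (T log T)` terms at distance more than
`c (P / (T (log T)³))^(1/2)` from every real `γ` with `ζ(1/2 + iγ) = 0`. -/
theorem result : ∃ c δ₀ T₀ : ℝ, 0 < c ∧ 0 < δ₀ ∧ 2 ≤ T₀ ∧ ∀ (T δ u : ℝ) (m₁ m₂ : ℤ), T₀ ≤ T →
    1 / Real.log T ≤ δ → δ ≤ δ₀ → T ≤ u + m₁ * δ → u + m₂ * δ ≤ 2 * T →
    T ^ (51 / 100 : ℝ) ≤ (m₂ : ℝ) - m₁ →
      c * (((m₂ : ℝ) - m₁) ^ 2 / (T * Real.log T)) ≤
        ({k : ℤ | m₁ ≤ k ∧ k < m₂ ∧ ∀ γ : ℝ, riemannZeta (1 / 2 + Complex.I * γ) = 0 →
          c * Real.sqrt (((m₂ : ℝ) - m₁) / (T * Real.log T ^ 3)) < |γ - (u + k * δ)|}.ncard : ℝ) := by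
  obtain ⟨c, δ0, T0, hc, hδ0, hT0, h⟩ := Helper647.SG.ap
  refine ⟨c, δ0, T0, hc, hδ0, by linarith, fun T δ u m1 m2 hT h1 h2 h3 h4 h5 => ?_⟩
  have h6 := h T δ u m1 m2 hT h1 h2 (by linarith) (by linarith) h5
  have e : ∀ k : ℤ, u + k * δ = u + δ * k := fun k => by ring
  simp only [e]
  exact h6

end Pool.Agent.Results.MP_0ec205_nt.ProgressionsFarFromOrdinates
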